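import Pool.Agent.Helper95.KZ.Goals

set_option autoImplicit false

namespace Pool.Agent.Helper68.KZ

open Pool.Agent.Helper52.Wq2 Pool.Agent.Helper95.KZ

universe u

/-- Packet KZ-FAR. -/
theorem far : FarStmt.{u} := by
  classical
  intro Γ _ S a b k B P F hF
  have hinj : Function.Injective (fun p : ℤ × ℤ => a ^ p.1 * b ^ p.2) := by
    rintro ⟨i, j⟩ ⟨i', j'⟩ h
    simp only at h
    have h1 : a ^ (i - i') * b ^ (j - j') = 1 := by
      have e1 : a ^ (i - i') * b ^ (j - j') = a ^ (-i') * (a ^ i * b ^ j) * b ^ (-j') := by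
        rw [show i - i' = -i' + i by ring, sub_eq_add_neg, zpow_add, zpow_add]
        simp only [mul_assoc]
      rw [e1, h, zpow_neg, zpow_neg, inv_mul_cancel_left, mul_inv_cancel]
    obtain ⟨h2, h3⟩ := P.ind _ _ h1
    rw [Prod.mk.injEq]
    omega
  have hfin : ((fun p : ℤ × ℤ => a ^ p.1 * b ^ p.2) ⁻¹'
      (Set.image2 (fun f x => f * x⁻¹) F B)).Finite :=
    (hF.image2 _ P.fin).preimage hinj.injOn
  have h2 := (hfin.image (fun p : ℤ × ℤ => |p.2|)).bddAbove
  obtain ⟨L, hL⟩ := h2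
  refine ⟨max L 0, le_max_right _ _, ?_⟩
  intro i j x hx hxF
  refine le_trans (hL ⟨(i, j), ?_, rfl⟩) (le_max_left _ _)
  exact ⟨_, hxF, x, hx, mul_inv_cancel_right _ _⟩

end Pool.Agent.Helper68.KZ
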