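import Pool.Agent.Helper95.KZ.Goals

set_option autoImplicit false

namespace Pool.Agent.Helper68.KZ

open Pool.Agent.Helper52.Wq2 Pool.Agent.Helper95.KZ

universe u

section

variable {Γ : Type u} [Group Γ] {S : Set Γ}

theorem cay_smul {a b : Γ} (g : Γ) (h : (cay S).Adj a b) : (cay S).Adj (g * a) (g * b) := by
  unfold cay at h ⊢
  rw [SimpleGraph.fromRel_adj] at h ⊢
  have e1 : ∀ a b : Γ, (g * a)⁻¹ * (g * b) = a⁻¹ * b := fun a b => by group
  rw [e1, e1]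
  exact ⟨fun h' => h.1 (mul_left_cancel h'), h.2⟩

theorem conn_univ (hS : IsGen S) : Conn (cay S) Set.univ := by
  refine ⟨⟨1, Set.mem_univ _⟩, ?_⟩
  intro A _ hne hcl x _
  obtain ⟨a₀, ha₀⟩ := hne
  have hmul : ∀ s ∈ S, ∀ a ∈ A, a * s ∈ A := by
    intro s hs a ha
    refine hcl a ha _ (Set.mem_univ _) ?_
    unfold cay
    rw [SimpleGraph.fromRel_adj]
    refine ⟨?_, Or.inl (by rwa [inv_mul_cancel_left])⟩
    intro h'
    have : s = 1 := by
      have := congrArg (fun z => a⁻¹ * z) h'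
      simpa using this.symm
    rw [this] at hs
    exact hS.2.2 hs
  have key : ∀ g : Γ, (∀ a ∈ A, a * g ∈ A) ∧ (∀ a ∈ A, a * g⁻¹ ∈ A) := by
    intro g
    have hg : g ∈ Subgroup.closure S := by rw [hS.1]; trivial
    induction hg using Subgroup.closure_induction with
    | mem s hs => exact ⟨hmul s hs, hmul _ (hS.2.1 s hs)⟩
    | one => simp
    | mul g g' _ _ h1 h2 =>
      refine ⟨fun a ha => ?_, fun a ha => ?_⟩
      · rw [← mul_assoc]
        exact h2.1 _ (h1.1 a ha)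
      · rw [mul_inv_rev, ← mul_assoc]
        exact h1.2 _ (h2.2 a ha)
    | inv g _ h1 =>
      refine ⟨h1.2, fun a ha => ?_⟩
      rw [inv_inv]
      exact h1.1 a ha
  have := (key (a₀⁻¹ * x)).1 a₀ ha₀
  rwa [mul_inv_cancel_left] at this

theorem conn_lft (g : Γ) {W : Set Γ} (h : Conn (cay S) W) : Conn (cay S) ((fun x => g * x) '' W) :=
  h.image _ fun _ _ _ _ hab => Or.inr (cay_smul g hab)

theorem union_pt {G : SimpleGraph Γ} {W W' : Set Γ} (h : Conn G W) (h' : Conn G W') {x : Γ}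
    (hx : x ∈ W) (hx' : x ∈ W') : Conn G (W ∪ W') := by
  refine ⟨⟨x, Or.inl hx⟩, ?_⟩
  intro A hA hne hcl
  have full : ∀ Z : Set Γ, Conn G Z → Z ⊆ W ∪ W' → (A ∩ Z).Nonempty → Z ⊆ A := by
    intro Z hZ hZW hn y hy
    exact (hZ.2 (A ∩ Z) Set.inter_subset_right hn
      (fun y hy z hz hyz => ⟨hcl y hy.1 z (hZW hz) hyz, hz⟩) hy).1
  have hxA : x ∈ A := by
    obtain ⟨y, hy⟩ := hne
    rcases hA hy with h1 | h1
    · exact full W h Set.subset_union_left ⟨y, hy, h1⟩ hx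
    · exact full W' h' Set.subset_union_right ⟨y, hy, h1⟩ hx'
  rintro y (hy | hy)
  · exact full W h Set.subset_union_left ⟨x, hxA, hx⟩ hy
  · exact full W' h' Set.subset_union_right ⟨x, hxA, hx'⟩ hy

theorem union_adj {G : SimpleGraph Γ} {W : Set Γ} (h : Conn G W) {x y : Γ}
    (hx : x ∈ W) (hxy : G.Adj x y) : Conn G (W ∪ {y}) :=
  h.union (conn_singleton G y) hx rfl hxy

theorem fin_conn {G : SimpleGraph Γ} {W : Set Γ} (h : Conn G W) {p q : Γ} (hp : p ∈ W)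
    (hq : q ∈ W) : ∃ W' ⊆ W, W'.Finite ∧ Conn G W' ∧ p ∈ W' ∧ q ∈ W' := by
  have := h.2 {y | y ∈ W ∧ ∃ W' ⊆ W, W'.Finite ∧ Conn G W' ∧ p ∈ W' ∧ y ∈ W'} (fun y hy => hy.1)
    ⟨p, hp, {p}, by simpa using hp, Set.finite_singleton p, conn_singleton G p, rfl, rfl⟩ (by
      rintro x ⟨_, W', h1, h2, h3, h4, h5⟩ y hy hxy
      refine ⟨hy, W' ∪ {y}, ?_, h2.union (Set.finite_singleton y), union_adj h3 h5 hxy,
        Or.inl h4, Or.inr rfl⟩
      exact Set.union_subset h1 (by simpa using hy))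
  exact (this hq).2

/-- The vertices that are joined to `R` outside `l`. -/
def U (S l R : Set Γ) : Set Γ :=
  {x | ∃ W, Conn (cay S) W ∧ Disjoint W l ∧ x ∈ W ∧ (W ∩ R).Nonempty}

theorem U_contra (hS : IsGen S) {l R : Set Γ} {k : Γ} {o : ℕ} (ho : 0 < o) (hk : k ^ o = 1)
    (hl : Conn (cay S) l) (hkl : ∀ x ∈ l, k * x ∉ l) (hR : Conn (cay S) R) (hRl : Disjoint R l)
    (hkR : ∀ x ∈ R, k * x ∈ R) (hU : ∀ x ∈ l, k * x ∉ U S l R) : False := by
  have kinv : ∀ Z : Set Γ, (∀ x ∈ Z, k * x ∈ Z) → ∀ x ∈ Z, k⁻¹ * x ∈ Z := by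
    intro Z hZ x hx
    have h1 : ∀ n : ℕ, k ^ n * x ∈ Z := by
      intro n
      induction n with
      | zero => simpa using hx
      | succ n ih =>
        rw [pow_succ', mul_assoc]
        exact hZ _ ih
    have h2 : k⁻¹ = k ^ (o - 1) := by
      rw [inv_eq_iff_mul_eq_one, ← pow_succ', Nat.sub_add_cancel ho, hk]
    rw [h2]
    exact h1 _
  have kinv' : ∀ Z : Set Γ, (∀ x ∈ Z, k⁻¹ * x ∈ Z) → ∀ x ∈ Z, k * x ∈ Z := by
    intro Z hZ x hx
    have h1 : ∀ n : ℕ, (k⁻¹) ^ n * x ∈ Z := by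
      intro n
      induction n with
      | zero => simpa using hx
      | succ n ih =>
        rw [pow_succ', mul_assoc]
        exact hZ _ ih
    have h2 : k = (k⁻¹) ^ (o - 1) := by
      rw [inv_pow, eq_inv_iff_mul_eq_one, ← pow_succ', Nat.sub_add_cancel ho, hk]
    have h3 := h1 (o - 1)
    rwa [← h2] at h3
  have hadd : ∀ x ∈ U S l R, ∀ y, (cay S).Adj x y → y ∉ l → y ∈ U S l R := by
    rintro x ⟨W, h1, h2, h3, h4⟩ y hxy hy
    refine ⟨W ∪ {y}, union_adj h1 h3 hxy, ?_, Or.inr rfl, h4.mono ?_⟩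
    · rw [Set.disjoint_union_left]
      exact ⟨h2, Set.disjoint_singleton_left.2 hy⟩
    · exact Set.inter_subset_inter_left _ Set.subset_union_left
  have hdown : ∀ x ∈ U S l R, k⁻¹ * x ∈ U S l R := by
    rintro x ⟨W, h1, h2, h3, w, h4, h5⟩
    have hWU : ∀ y ∈ W, y ∈ U S l R := fun y hy => ⟨W, h1, h2, hy, w, h4, h5⟩
    refine ⟨(fun z => k⁻¹ * z) '' W, conn_lft _ h1, ?_, ⟨x, h3, rfl⟩, k⁻¹ * w, ⟨w, h4, rfl⟩,
      kinv R hkR w h5⟩
    rw [Set.disjoint_left]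
    rintro _ ⟨z, hz, rfl⟩ hzl
    apply hU _ hzl
    simp only [mul_inv_cancel_left]
    exact hWU z hz
  have hup := kinv' _ hdown
  obtain ⟨r, hr⟩ := hR.1
  obtain ⟨y₀, hy₀⟩ := hl.1
  have hrU : r ∈ U S l R := ⟨R, hR, hRl, hr, r, hr, hr⟩
  have hlU : ∀ x ∈ l, x ∉ U S l R := by
    rintro x hx ⟨W, _, h2, h3, _⟩
    exact Set.disjoint_left.1 h2 h3 hx
  have hall := (conn_univ hS).2 (U S l R) (Set.subset_univ _) ⟨r, hrU⟩ (by
    intro x hx y _ hxy
    by_cases hy : y ∈ l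
    · exfalso
      have h1 : k⁻¹ * y ∉ l := by
        intro h'
        have := hkl _ h'
        rw [mul_inv_cancel_left] at this
        exact this hy
      have h2 := hadd _ (hdown x hx) _ (cay_smul k⁻¹ hxy) h1
      have h3 := hup _ h2
      rw [mul_inv_cancel_left] at h3
      exact hlU y hy h3
    · exact hadd x hx y hxy hy)
  exact hlU y₀ hy₀ (hall (Set.mem_univ _))

end

/-- Packet KZ-JMP. -/
theorem jmp (hSlc : SlcStmt.{u}) : JmpStmt.{u} := by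
  classical
  intro Γ _ S a b k B P o ho hk l hl hkl L hL hLl c₀
  obtain ⟨c, hc1, hc2⟩ : ∃ c : ℤ, c₀ ≤ c ∧ L < c := ⟨max c₀ (L + 1), le_max_left _ _, by
    have := le_max_right c₀ (L + 1)
    omega⟩
  have ka : Commute k a := Commute.symm P.ak
  have kb : Commute k b := Commute.symm P.bk
  have ck : ∀ i : ℤ, k * a ^ i = a ^ i * k := fun i => (ka.zpow_right i).eq
  have bk : ∀ i : ℤ, k * b ^ i = b ^ i * k := fun i => (kb.zpow_right i).eq
  have hSk : ∀ Q : ℤ → Prop, ∀ x ∈ Sl a b B Q, k * x ∈ Sl a b B Q := by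
    rintro Q _ ⟨i, j, hj, x, hx, rfl⟩
    refine ⟨i, j, hj, k * x, P.kB x hx, ?_⟩
    calc k * (a ^ i * b ^ j * x) = (k * a ^ i) * b ^ j * x := by simp only [mul_assoc]
      _ = a ^ i * (k * b ^ j) * x := by rw [ck]; simp only [mul_assoc]
      _ = a ^ i * b ^ j * (k * x) := by rw [bk]; simp only [mul_assoc]
  have hSd : ∀ Q : ℤ → Prop, (∀ j, Q j → L < |j|) → Disjoint (Sl a b B Q) l := by
    intro Q hQ
    rw [Set.disjoint_left]
    rintro _ ⟨i, j, hj, x, hx, rfl⟩ hxl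
    have h1 := hLl i j x hx hxl
    have h2 := hQ j hj
    omega
  have hp : Conn (cay S) (Sl a b B (fun j => c ≤ j)) :=
    hSlc Γ S a b k B P _ ⟨c, le_refl c⟩ fun i j m hi _ hij _ => le_trans hi hij
  have hm : Conn (cay S) (Sl a b B (fun j => j ≤ -c)) :=
    hSlc Γ S a b k B P _ ⟨-c, le_refl _⟩ fun i j m _ hm _ hjm => le_trans hjm hm
  have hpd : Disjoint (Sl a b B (fun j => c ≤ j)) l := hSd _ fun j hj => by
    have := le_abs_self j
    omega
  have hmd : Disjoint (Sl a b B (fun j => j ≤ -c)) l := hSd _ fun j hj => by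
    have := neg_le_abs j
    omega
  by_cases hUU : (U S l (Sl a b B (fun j => c ≤ j)) ∩ U S l (Sl a b B (fun j => j ≤ -c))).Nonempty
  · obtain ⟨x, ⟨W, a1, a2, a3, p, a4, a5⟩, W', b1, b2, b3, q, b4, b5⟩ := hUU
    obtain ⟨Z, c1, c2, c3, c4, c5⟩ := fin_conn (union_pt a1 b1 a3 b3) (Or.inl a4 : p ∈ W ∪ W')
      (Or.inr b4 : q ∈ W ∪ W')
    refine ⟨Z, c2, c3, ?_, ⟨p, c4, ?_⟩, ⟨q, c5, ?_⟩⟩
    · exact Disjoint.mono_left c1 (Set.disjoint_union_left.2 ⟨a2, b2⟩)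
    · obtain ⟨i, j, hj, x, hx, h⟩ := a5
      exact ⟨i, j, le_trans hc1 hj, x, hx, h⟩
    · obtain ⟨i, j, hj, x, hx, h⟩ := b5
      refine ⟨i, j, ?_, x, hx, h⟩
      simp only at hj ⊢
      omega
  · exfalso
    have hkc : Conn (cay S) ((fun x => k * x) '' l) := conn_lft k hl
    have hkd : Disjoint ((fun x => k * x) '' l) l := by
      rw [Set.disjoint_left]
      rintro _ ⟨x, hx, rfl⟩
      exact hkl x hx
    have hall : ∀ R : Set Γ, (∃ x ∈ l, k * x ∈ U S l R) → ∀ x ∈ l, k * x ∈ U S l R := by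
      rintro R ⟨x, hx, W, a1, a2, a3, a4⟩ y hy
      refine ⟨W ∪ (fun x => k * x) '' l, union_pt a1 hkc a3 ⟨x, hx, rfl⟩, ?_,
        Or.inr ⟨y, hy, rfl⟩, a4.mono (Set.inter_subset_inter_left _ Set.subset_union_left)⟩
      rw [Set.disjoint_union_left]
      exact ⟨a2, hkd⟩
    by_cases h1 : ∃ x ∈ l, k * x ∈ U S l (Sl a b B (fun j => c ≤ j))
    · by_cases h2 : ∃ x ∈ l, k * x ∈ U S l (Sl a b B (fun j => j ≤ -c))
      · obtain ⟨x, hx⟩ := hl.1
        exact hUU ⟨k * x, hall _ h1 x hx, hall _ h2 x hx⟩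
      · push Not at h2
        exact U_contra P.gen ho hk hl hkl hm hmd (hSk _) h2
    · push Not at h1
      exact U_contra P.gen ho hk hl hkl hp hpd (hSk _) h1

end Pool.Agent.Helper68.KZ
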